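import Pool.Agent.R495.MP.Defs

set_option autoImplicit false

/-! Project MP: piece MP-BRIDGE. -/

namespace R495.MP

namespace Bridge

lemma mem_nbrs (v u : ℤ × ℤ) : u ∈ nbrs v ↔ Adj v u := by
  obtain ⟨a, b⟩ := v
  obtain ⟨c, d⟩ := u
  simp only [nbrs, Adj, Finset.mem_insert, Finset.mem_singleton, Prod.mk.injEq]
  omega

lemma mem_grid (n : ℕ) (v : ℤ × ℤ) : v ∈ grid n ↔ v ∈ Rect 1 n 1 n := by
  unfold grid Rect
  simp only [Finset.mem_product, Finset.mem_Icc, Set.mem_ofPred_eq]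
  tauto

lemma subset_step (n : ℕ) (X : Finset (ℤ × ℤ)) : X ⊆ step n X := Finset.subset_union_left

lemma step_subset (n : ℕ) (X : Finset (ℤ × ℤ)) (h : X ⊆ grid n) : step n X ⊆ grid n :=
  Finset.union_subset h (Finset.filter_subset _ _)

lemma iter_subset (n : ℕ) (X : Finset (ℤ × ℤ)) (h : X ⊆ grid n) (t : ℕ) :
    (step n)^[t] X ⊆ grid n := by
  induction t with
  | zero => exact h
  | succ t ih =>
    rw [Function.iterate_succ_apply']
    exact step_subset n _ ih

lemma subset_iter (n : ℕ) (X : Finset (ℤ × ℤ)) (t : ℕ) : X ⊆ (step n)^[t] X := by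
  induction t with
  | zero => exact Finset.Subset.refl _
  | succ t ih =>
    rw [Function.iterate_succ_apply']
    exact ih.trans (subset_step n _)

lemma stab (n : ℕ) (X : Finset (ℤ × ℤ)) (h : X ⊆ grid n) :
    ∃ t, step n ((step n)^[t] X) = (step n)^[t] X := by
  by_contra hc
  push Not at hc
  have hcard : ∀ t, t ≤ ((step n)^[t] X).card := by
    intro t
    induction t with
    | zero => exact Nat.zero_le _
    | succ t ih =>
      rw [Function.iterate_succ_apply']
      have h1 : (step n)^[t] X ⊂ step n ((step n)^[t] X) :=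
        (subset_step n _).ssubset_of_ne (Ne.symm (hc t))
      have h2 := Finset.card_lt_card h1
      omega
  have h1 := hcard ((grid n).card + 1)
  have h2 := Finset.card_le_card (iter_subset n X h ((grid n).card + 1))
  omega

lemma closed_stable (n : ℕ) (Y : Finset (ℤ × ℤ)) (h : Y ⊆ grid n) (hs : step n Y = Y) :
    Closed (Y : Set (ℤ × ℤ)) := by
  intro v u w huw hu hw hu' hw'
  have hu' : u ∈ Y := hu'
  have hw' : w ∈ Y := hw'
  have gu := (mem_grid n u).1 (h hu')
  have gw := (mem_grid n w).1 (h hw')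
  have hv : v ∈ grid n := by
    rw [mem_grid]
    obtain ⟨a, b⟩ := v
    obtain ⟨c, d⟩ := u
    obtain ⟨e, f⟩ := w
    simp only [Rect, Set.mem_ofPred_eq, Adj, ne_eq, Prod.mk.injEq, not_and] at *
    omega
  have hcard : 2 ≤ (nbrs v ∩ Y).card := by
    rw [show (2 : ℕ) = 1 + 1 from rfl, Nat.succ_le_iff, Finset.one_lt_card]
    exact ⟨u, Finset.mem_inter.2 ⟨(mem_nbrs v u).2 hu, hu'⟩, w,
      Finset.mem_inter.2 ⟨(mem_nbrs v w).2 hw, hw'⟩, huw⟩
  have h1 : v ∈ step n Y := by
    unfold step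
    exact Finset.mem_union_right _ (Finset.mem_filter.2 ⟨hv, hcard⟩)
  rw [hs] at h1
  exact h1

lemma iter_in_closed (n : ℕ) (X : Set (ℤ × ℤ)) (hX : Closed X) (B : Finset (ℤ × ℤ))
    (hB : ∀ v ∈ B, v ∈ X) (t : ℕ) : ∀ v ∈ (step n)^[t] B, v ∈ X := by
  induction t with
  | zero => exact hB
  | succ t ih =>
    intro v hv
    rw [Function.iterate_succ_apply'] at hv
    unfold step at hv
    rcases Finset.mem_union.1 hv with h | h
    · exact ih v h
    · obtain ⟨-, h2⟩ := Finset.mem_filter.1 h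
      rw [show (2 : ℕ) = 1 + 1 from rfl, Nat.succ_le_iff, Finset.one_lt_card] at h2
      obtain ⟨u, hu, w, hw, huw⟩ := h2
      obtain ⟨hu1, hu2⟩ := Finset.mem_inter.1 hu
      obtain ⟨hw1, hw2⟩ := Finset.mem_inter.1 hw
      exact hX v u w huw ((mem_nbrs v u).1 hu1) ((mem_nbrs v w).1 hw1) (ih u hu2) (ih w hw2)

end Bridge

open Bridge in
theorem t_Bridge : S_Bridge := by
  intro n N hn hG
  obtain ⟨T, hT, rfl⟩ := hG
  have hTg : T ⊆ grid n := fun v hv => (mem_grid n v).2 (hT.sub v hv)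
  have hmin : MinPerc n T := by
    refine ⟨hTg, ?_, ?_⟩
    · obtain ⟨t, ht⟩ := stab n T hTg
      refine ⟨t, Finset.Subset.antisymm (iter_subset n T hTg t) ?_⟩
      have h1 := closed_stable n _ (iter_subset n T hTg t) ht
      have h2 := hT.span _ h1 (fun v hv => subset_iter n T t hv)
      intro v hv
      exact h2 ((mem_grid n v).1 hv)
    · intro B hB hperc
      obtain ⟨s, hs, hsB⟩ := Finset.exists_of_ssubset hB
      have hBT : B ⊆ T := hB.subset
      obtain ⟨X, hXc, -, hX, hbad⟩ := hT.avoid s hs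
      have hBX : ∀ v ∈ B, v ∈ X := fun v hv => hX v (hBT hv) (fun e => hsB (e ▸ hv))
      obtain ⟨t, ht⟩ := hperc
      have h1 := iter_in_closed n X hXc B hBX t (1, 1) (by
        rw [ht, mem_grid]
        refine ⟨le_refl _, ?_, le_refl _, ?_⟩ <;> simp <;> exact_mod_cast hn)
      exact hbad (1, 1) h1 rfl
  apply le_csSup
  · refine ⟨(grid n).card, ?_⟩
    rintro k ⟨A, hA, rfl⟩
    exact Finset.card_le_card hA.1
  · exact ⟨T, hmin, rfl⟩

end R495.MP
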