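import Pool.Agent.R497.TM.Defs

/-!
Project TM (helper497, MP_4d8f14_an), item TR: from almost every height to height zero.
-/

set_option autoImplicit false

namespace Pool.Agent.R262.TM

open MeasureTheory Filter Finset
open Pool.Agent.R497.TM

universe u

/-- the floor does not change unless the fractional part is close to 1 -/
theorem floor_same {s t : ℝ} (hs : 0 ≤ s) (h : Int.fract t < 1 - s) : ⌊s + t⌋ = ⌊t⌋ := by
  rw [Int.floor_eq_iff]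
  have h1 := Int.floor_add_fract t
  have h2 := Int.fract_nonneg t
  constructor <;> linarith

/-- the difference of the two averages -/
theorem diff_bound (r : ℕ) (Q : Fin r → ℕ → ℝ) (F : ℕ → (Fin r → ℤ) → ℂ) (C s : ℝ) (hC : 0 ≤ C)
    (hF : ∀ n k, ‖F n k‖ ≤ C) (hs : 0 ≤ s) (N : ℕ) :
    ‖(1 / (N : ℂ)) * ∑ n ∈ Icc 1 N, F n (fun j => ⌊Q j n⌋)
      - (1 / (N : ℂ)) * ∑ n ∈ Icc 1 N, F n (fun j => ⌊s + Q j n⌋)‖
      ≤ 2 * C * ∑ j, (1 / (N : ℝ)) * (((Icc 1 N).filter fun n : ℕ => 1 - s ≤ Int.fract (Q j n)).card : ℝ) := by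
  have e1 : ∀ n, ‖F n (fun j => ⌊Q j n⌋) - F n (fun j => ⌊s + Q j n⌋)‖
      ≤ 2 * C * ∑ j, (if 1 - s ≤ Int.fract (Q j n) then (1 : ℝ) else 0) := by
    intro n
    by_cases h : ∃ j, 1 - s ≤ Int.fract (Q j n)
    · obtain ⟨j, hj⟩ := h
      have h1 : (1 : ℝ) ≤ ∑ j, (if 1 - s ≤ Int.fract (Q j n) then (1 : ℝ) else 0) := by
        calc (1 : ℝ) = (if 1 - s ≤ Int.fract (Q j n) then (1 : ℝ) else 0) := by rw [if_pos hj]
          _ ≤ _ := Finset.single_le_sum (f := fun j => (if 1 - s ≤ Int.fract (Q j n) then (1 : ℝ) else 0))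
              (fun i _ => by positivity) (Finset.mem_univ j)
      calc ‖F n (fun j => ⌊Q j n⌋) - F n (fun j => ⌊s + Q j n⌋)‖
          ≤ ‖F n (fun j => ⌊Q j n⌋)‖ + ‖F n (fun j => ⌊s + Q j n⌋)‖ := norm_sub_le _ _
        _ ≤ C + C := add_le_add (hF _ _) (hF _ _)
        _ = 2 * C * 1 := by ring
        _ ≤ _ := mul_le_mul_of_nonneg_left h1 (by positivity)
    · push Not at h
      have h1 : (fun j => ⌊s + Q j n⌋) = fun j => ⌊Q j n⌋ := by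
        funext j
        exact floor_same hs (h j)
      rw [h1, sub_self, norm_zero]
      have h2 : 0 ≤ ∑ j, (if 1 - s ≤ Int.fract (Q j n) then (1 : ℝ) else 0) :=
        Finset.sum_nonneg fun j _ => by positivity
      positivity
  have e2 : ∀ j, (((Icc 1 N).filter fun n : ℕ => 1 - s ≤ Int.fract (Q j n)).card : ℝ)
      = ∑ n ∈ Icc 1 N, (if 1 - s ≤ Int.fract (Q j n) then (1 : ℝ) else 0) := by
    intro j
    rw [Finset.sum_boole]
  rw [← mul_sub, ← Finset.sum_sub_distrib, norm_mul]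
  have e3 : ‖(1 / (N : ℂ))‖ = 1 / (N : ℝ) := by
    rw [norm_div, norm_one, Complex.norm_natCast]
  rw [e3]
  calc 1 / (N : ℝ) * ‖∑ n ∈ Icc 1 N, (F n (fun j => ⌊Q j n⌋) - F n (fun j => ⌊s + Q j n⌋))‖
      ≤ 1 / (N : ℝ) * ∑ n ∈ Icc 1 N, (2 * C * ∑ j, (if 1 - s ≤ Int.fract (Q j n) then (1 : ℝ) else 0)) := by
        apply mul_le_mul_of_nonneg_left _ (by positivity)
        exact (norm_sum_le _ _).trans (Finset.sum_le_sum fun n _ => e1 n)
    _ = 2 * C * ∑ j, (1 / (N : ℝ)) * (((Icc 1 N).filter fun n : ℕ => 1 - s ≤ Int.fract (Q j n)).card : ℝ) := by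
        simp only [e2]
        rw [← Finset.mul_sum, Finset.sum_comm, ← Finset.mul_sum]
        ring

/-- small good heights -/
theorem small_good {G : ℝ → Prop} (h : ∀ᵐ s ∂(volume.restrict (Set.Ico (0 : ℝ) 1)), G s) {δ : ℝ} (h0 : 0 < δ)
    (h1 : δ ≤ 1) : ∃ s, 0 < s ∧ s < δ ∧ G s := by
  have hsub : Set.Ioo 0 δ ⊆ Set.Ico (0 : ℝ) 1 := fun x hx => ⟨hx.1.le, hx.2.trans_le h1⟩
  have h2 : ∀ᵐ s ∂(volume.restrict (Set.Ioo (0 : ℝ) δ)), G s := ae_restrict_of_ae_restrict_of_subset hsub h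
  have h3 : ∀ᵐ s ∂(volume.restrict (Set.Ioo (0 : ℝ) δ)), s ∈ Set.Ioo (0 : ℝ) δ := ae_restrict_mem measurableSet_Ioo
  have h4 : (ae (volume.restrict (Set.Ioo (0 : ℝ) δ))).NeBot := by
    rw [ae_restrict_neBot, Real.volume_Ioo, sub_zero]
    exact (ENNReal.ofReal_pos.2 h0).ne'
  obtain ⟨s, hs1, hs2⟩ := (h2.and h3).exists
  exact ⟨s, hs2.1, hs2.2, hs1⟩

theorem t_TR (h : S_EQD) : S_TR.{u} := by
  intro X _ μ _ r P Φ C hP hΦ hconv
  have hE : ∀ᵐ a : ℝ, ∀ j, ∀ s : ℝ, 0 < s → ∀ᶠ N : ℕ in atTop,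
      (1 / (N : ℝ)) * (((Icc 1 N).filter fun n : ℕ => 1 - s ≤ Int.fract (a * (P j).eval (n : ℝ))).card : ℝ)
        ≤ 5 * s := ae_all_iff.2 fun j => h (P j) (hP j)
  filter_upwards [hE, hconv] with a hEa hca
  have hsw : ∀ᵐ x ∂μ, ∀ᵐ s ∂(volume.restrict (Set.Ico (0 : ℝ) 1)),
      Tendsto (fun N : ℕ => (1 / (N : ℂ)) * ∑ n ∈ Icc 1 N,
        Φ n x fun j => ⌊Int.fract s + a * (P j).eval (n : ℝ)⌋) atTop (nhds 0) := by
    have h1 : ∀ᵐ q ∂(μ.prod (volume.restrict (Set.Ico (0 : ℝ) 1))),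
        Tendsto (fun N : ℕ => (1 / (N : ℂ)) * ∑ n ∈ Icc 1 N,
          Φ n (Prod.swap q).2 fun j => ⌊Int.fract (Prod.swap q).1 + a * (P j).eval (n : ℝ)⌋) atTop (nhds 0) :=
      (Measure.measurePreserving_swap).quasiMeasurePreserving.ae hca
    exact Measure.ae_ae_of_ae_prod h1
  filter_upwards [hsw, hΦ] with x hx hb
  have hC : 0 ≤ C := (norm_nonneg _).trans (hb 0 (fun _ => 0))
  rw [Metric.tendsto_atTop]
  intro ε hε
  have hD : 0 < 10 * C * r + 1 := by positivity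
  obtain ⟨s, hs0, hs1, hs2⟩ := small_good hx (δ := min 1 (ε / (4 * (10 * C * r + 1)))) (by positivity)
    (min_le_left _ _)
  have hs3 : s < 1 := hs1.trans_le (min_le_left _ _)
  have hs4 : s < ε / (4 * (10 * C * r + 1)) := hs1.trans_le (min_le_right _ _)
  have hfr : Int.fract s = s := Int.fract_eq_self.2 ⟨hs0.le, hs3⟩
  rw [hfr] at hs2
  have hev1 : ∀ᶠ N : ℕ in atTop, ‖(1 / (N : ℂ)) * ∑ n ∈ Icc 1 N,
        Φ n x fun j => ⌊s + a * (P j).eval (n : ℝ)⌋‖ < ε / 2 := by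
    have h1 := (Metric.tendsto_nhds.1 hs2) (ε / 2) (by positivity)
    filter_upwards [h1] with N hN
    simpa [dist_eq_norm] using hN
  have hev2 : ∀ᶠ N : ℕ in atTop, ∀ j, (1 / (N : ℝ)) *
      (((Icc 1 N).filter fun n : ℕ => 1 - s ≤ Int.fract (a * (P j).eval (n : ℝ))).card : ℝ) ≤ 5 * s :=
    eventually_all.2 fun j => hEa j s hs0
  obtain ⟨N0, hN0⟩ := eventually_atTop.1 (hev1.and hev2)
  refine ⟨N0, fun N hN => ?_⟩
  obtain ⟨h1, h2⟩ := hN0 N hN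
  have h3 := diff_bound r (fun j n => a * (P j).eval (n : ℝ)) (fun n k => Φ n x k) C s hC hb hs0.le N
  have h4 : ∑ j, (1 / (N : ℝ)) *
      (((Icc 1 N).filter fun n : ℕ => 1 - s ≤ Int.fract (a * (P j).eval (n : ℝ))).card : ℝ) ≤ r * (5 * s) := by
    calc ∑ j, (1 / (N : ℝ)) *
        (((Icc 1 N).filter fun n : ℕ => 1 - s ≤ Int.fract (a * (P j).eval (n : ℝ))).card : ℝ)
        ≤ ∑ _j : Fin r, 5 * s := Finset.sum_le_sum fun j _ => h2 j
      _ = r * (5 * s) := by simp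
  have h5 : 2 * C * (r * (5 * s)) ≤ ε / 4 := by
    have h6 : s * (4 * (10 * C * r + 1)) < ε := (lt_div_iff₀ (by positivity)).1 hs4
    nlinarith
  rw [dist_eq_norm, sub_zero]
  calc ‖(1 / (N : ℂ)) * ∑ n ∈ Icc 1 N, Φ n x fun j => ⌊a * (P j).eval (n : ℝ)⌋‖
      = ‖((1 / (N : ℂ)) * ∑ n ∈ Icc 1 N, Φ n x (fun j => ⌊a * (P j).eval (n : ℝ)⌋)
          - (1 / (N : ℂ)) * ∑ n ∈ Icc 1 N, Φ n x (fun j => ⌊s + a * (P j).eval (n : ℝ)⌋))
          + (1 / (N : ℂ)) * ∑ n ∈ Icc 1 N, Φ n x (fun j => ⌊s + a * (P j).eval (n : ℝ)⌋)‖ := by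
        rw [sub_add_cancel]
    _ ≤ _ := norm_add_le _ _
    _ ≤ 2 * C * (r * (5 * s)) + ‖(1 / (N : ℂ)) * ∑ n ∈ Icc 1 N,
          Φ n x (fun j => ⌊s + a * (P j).eval (n : ℝ)⌋)‖ := by
        gcongr
        exact h3.trans (mul_le_mul_of_nonneg_left h4 (by positivity))
    _ < ε := by linarith

end Pool.Agent.R262.TM
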